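import Pool.Agent.W610.HY.Stm

/-!
# Project HY (helper610): the product of the integrals over two circles outside each other
-/

set_option autoImplicit false

namespace Pool.Agent.W150.HY.AB

open Pool.Agent.W610.HY
open MeasureTheory Set Metric

lemma res_id {𝒜 : Type} [NormedRing 𝒜] [NormedAlgebra ℂ 𝒜] (a : 𝒜) {z x : ℂ}
    (hz : z ∈ resolventSet ℂ a) (hx : x ∈ resolventSet ℂ a) (hne : x - z ≠ 0) :
    resolvent a z * resolvent a x = (x - z)⁻¹ • (resolvent a z - resolvent a x) := by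
  obtain ⟨U, hU⟩ := hz
  obtain ⟨V, hV⟩ := hx
  have e1 : resolvent a z = (↑U⁻¹ : 𝒜) := by
    rw [resolvent, ← hU, Ring.inverse_unit]
  have e2 : resolvent a x = (↑V⁻¹ : 𝒜) := by
    rw [resolvent, ← hV, Ring.inverse_unit]
  rw [e1, e2]
  have h1 : (V : 𝒜) - U = (x - z) • (1 : 𝒜) := by
    rw [hU, hV, Algebra.algebraMap_eq_smul_one, Algebra.algebraMap_eq_smul_one, sub_smul]
    abel
  have h2 : (↑U⁻¹ : 𝒜) - ↑V⁻¹ = (x - z) • ((↑U⁻¹ : 𝒜) * ↑V⁻¹) := by
    calc (↑U⁻¹ : 𝒜) - ↑V⁻¹ = ↑U⁻¹ * ((V : 𝒜) - U) * ↑V⁻¹ := by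
          rw [mul_sub, sub_mul, mul_assoc, Units.mul_inv, mul_one, Units.inv_mul, one_mul]
      _ = (x - z) • ((↑U⁻¹ : 𝒜) * ↑V⁻¹) := by
          rw [h1, mul_smul_comm, mul_one, smul_mul_assoc]
  rw [h2, smul_smul, inv_mul_cancel₀ hne, one_smul]

lemma norm_cm (c : ℂ) (r θ : ℝ) (hr : 0 < r) : ‖circleMap c r θ - c‖ = r := by
  rw [circleMap_sub_center, norm_circleMap_zero, abs_of_pos hr]

theorem main (hMEAS : MEAS) : AB := by
  intro 𝒜 _ _ _ a c₁ c₂ r₁ r₂ h₁ h₂ G₁ G₂ hr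
  set μ : Measure ℝ := volume.restrict (Ioc (0:ℝ) (2 * Real.pi)) with hμ
  set d : ℝ := ‖c₁ - c₂‖ - r₁ - r₂ with hd
  have hdpos : 0 < d := by rw [hd]; linarith
  set z : ℝ → ℂ := circleMap c₁ r₁ with hz
  set x : ℝ → ℂ := circleMap c₂ r₂ with hx
  set u : ℝ → ℂ := circleMap 0 1 with hu
  have hzc : ∀ θ, ‖z θ - c₁‖ = r₁ := fun θ => norm_cm c₁ r₁ θ G₁.pos
  have hxc : ∀ φ, ‖x φ - c₂‖ = r₂ := fun φ => norm_cm c₂ r₂ φ G₂.pos
  have hun : ∀ θ, ‖u θ‖ = 1 := by
    intro θ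
    rw [hu, norm_circleMap_zero, abs_one]
  have hdist : ∀ θ φ, d ≤ ‖x φ - z θ‖ := by
    intro θ φ
    have h1 : c₁ - c₂ = (x φ - c₂) - (z θ - c₁) - (x φ - z θ) := by ring
    have h2 : ‖c₁ - c₂‖ ≤ ‖x φ - c₂‖ + ‖z θ - c₁‖ + ‖x φ - z θ‖ := by
      rw [h1]
      exact (norm_sub_le _ _).trans (by gcongr; exact norm_sub_le _ _)
    rw [hzc, hxc] at h2
    rw [hd]
    linarith
  have hxz : ∀ θ φ, x φ - z θ ≠ 0 := by
    intro θ φ h
    have := hdist θ φ
    rw [h, norm_zero] at this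
    linarith
  have hzm : Measurable z := (continuous_circleMap c₁ r₁).measurable
  have hxm : Measurable x := (continuous_circleMap c₂ r₂).measurable
  have hum : Measurable u := (continuous_circleMap 0 1).measurable
  have hRz : StronglyMeasurable (fun θ => resolvent a (z θ)) := (hMEAS 𝒜 a).comp_measurable hzm
  have hRx : StronglyMeasurable (fun φ => resolvent a (x φ)) := (hMEAS 𝒜 a).comp_measurable hxm
  -- the scalar kernel
  set k : ℝ → ℝ → ℂ := fun θ φ => (h₁ θ * u θ) * (h₂ φ * (u φ / (x φ - z θ))) with hk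
  have hkm : Measurable (fun p : ℝ × ℝ => k p.1 p.2) := by
    rw [hk]
    have m1 : Measurable (fun p : ℝ × ℝ => p.1) := measurable_fst
    have m2 : Measurable (fun p : ℝ × ℝ => p.2) := measurable_snd
    have a1 := G₁.meas.comp m1
    have a2 := hum.comp m1
    have a3 := G₂.meas.comp m2
    have a4 := hum.comp m2
    have a5 := hxm.comp m2
    have a6 := hzm.comp m1
    exact (a1.mul a2).mul (a3.mul (a4.div (a5.sub a6)))
  have hkn : ∀ θ φ, ‖k θ φ‖ ≤ ‖h₁ θ‖ * ‖h₂ φ‖ * d⁻¹ := by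
    intro θ φ
    rw [hk]
    simp only [norm_mul, norm_div, hun, mul_one, one_div]
    rw [← mul_assoc]
    gcongr
    exact hdist θ φ
  -- integrability on the product
  have hK1 : Integrable (fun p : ℝ × ℝ => k p.1 p.2 • resolvent a (z p.1)) (μ.prod μ) := by
    apply Integrable.of_bound (C := d⁻¹)
    · exact (hkm.aestronglyMeasurable).smul
        ((hRz.comp_measurable measurable_fst).aestronglyMeasurable)
    · have b1 := Measure.quasiMeasurePreserving_fst (μ := μ) (ν := μ) |>.ae G₁.bound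
      have b2 := Measure.quasiMeasurePreserving_snd (μ := μ) (ν := μ) |>.ae G₂.le_one
      filter_upwards [b1, b2] with p hp1 hp2
      rw [norm_smul]
      have n1 := norm_nonneg (resolvent a (z p.1))
      have n2 := norm_nonneg (h₁ p.1)
      have n3 := norm_nonneg (h₂ p.2)
      calc ‖k p.1 p.2‖ * ‖resolvent a (z p.1)‖ ≤ ‖h₁ p.1‖ * ‖h₂ p.2‖ * d⁻¹ *
            ‖resolvent a (z p.1)‖ := by gcongr; exact hkn _ _
        _ = (‖h₁ p.1‖ * ‖resolvent a (z p.1)‖) * ‖h₂ p.2‖ * d⁻¹ := by ring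
        _ ≤ 1 * 1 * d⁻¹ := by
            have := inv_nonneg.2 hdpos.le
            gcongr
        _ = d⁻¹ := by ring
  have hK2 : Integrable (fun p : ℝ × ℝ => k p.1 p.2 • resolvent a (x p.2)) (μ.prod μ) := by
    apply Integrable.of_bound (C := d⁻¹)
    · exact (hkm.aestronglyMeasurable).smul
        ((hRx.comp_measurable measurable_snd).aestronglyMeasurable)
    · have b1 := Measure.quasiMeasurePreserving_fst (μ := μ) (ν := μ) |>.ae G₁.le_one
      have b2 := Measure.quasiMeasurePreserving_snd (μ := μ) (ν := μ) |>.ae G₂.bound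
      filter_upwards [b1, b2] with p hp1 hp2
      rw [norm_smul]
      have n1 := norm_nonneg (resolvent a (x p.2))
      have n2 := norm_nonneg (h₁ p.1)
      have n3 := norm_nonneg (h₂ p.2)
      calc ‖k p.1 p.2‖ * ‖resolvent a (x p.2)‖ ≤ ‖h₁ p.1‖ * ‖h₂ p.2‖ * d⁻¹ *
            ‖resolvent a (x p.2)‖ := by gcongr; exact hkn _ _
        _ = ‖h₁ p.1‖ * (‖h₂ p.2‖ * ‖resolvent a (x p.2)‖) * d⁻¹ := by ring
        _ ≤ 1 * 1 * d⁻¹ := by
            have := inv_nonneg.2 hdpos.le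
            gcongr
        _ = d⁻¹ := by ring
  -- the two factors
  set f₁ : ℝ → 𝒜 := fun θ => (h₁ θ * u θ) • resolvent a (z θ) with hf₁
  set f₂ : ℝ → 𝒜 := fun φ => (h₂ φ * u φ) • resolvent a (x φ) with hf₂
  have hi₁ : Integrable f₁ μ := by
    apply Integrable.of_bound (C := 1)
    · exact ((G₁.meas.mul hum).aestronglyMeasurable).smul hRz.aestronglyMeasurable
    · filter_upwards [G₁.bound] with θ hθ
      rw [hf₁]
      simp only [norm_smul, norm_mul, hun, mul_one]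
      exact hθ
  have hi₂ : Integrable f₂ μ := by
    apply Integrable.of_bound (C := 1)
    · exact ((G₂.meas.mul hum).aestronglyMeasurable).smul hRx.aestronglyMeasurable
    · filter_upwards [G₂.bound] with θ hθ
      rw [hf₂]
      simp only [norm_smul, norm_mul, hun, mul_one]
      exact hθ
  have hA₁ : AA a c₁ r₁ h₁ = ∫ θ, f₁ θ ∂μ := by
    unfold AA
    rw [intervalIntegral.integral_of_le Real.two_pi_pos.le]
  have hA₂ : AA a c₂ r₂ h₂ = ∫ φ, f₂ φ ∂μ := by
    unfold AA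
    rw [intervalIntegral.integral_of_le Real.two_pi_pos.le]
  have hprod : (∫ θ, f₁ θ ∂μ) * (∫ φ, f₂ φ ∂μ) = ∫ θ, ∫ φ, f₁ θ * f₂ φ ∂μ ∂μ := by
    rw [← integral_mul_const_of_integrable hi₁]
    congr 1
    funext θ
    rw [integral_const_mul_of_integrable hi₂]
  have hae : (fun p : ℝ × ℝ => f₁ p.1 * f₂ p.2) =ᵐ[μ.prod μ]
      fun p => k p.1 p.2 • resolvent a (z p.1) - k p.1 p.2 • resolvent a (x p.2) := by
    have b1 := Measure.quasiMeasurePreserving_fst (μ := μ) (ν := μ) |>.ae G₁.res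
    have b2 := Measure.quasiMeasurePreserving_snd (μ := μ) (ν := μ) |>.ae G₂.res
    filter_upwards [b1, b2] with p hp1 hp2
    simp only [hf₁, hf₂, hk]
    rw [smul_mul_smul_comm, res_id a hp1 hp2 (hxz p.1 p.2), ← smul_sub, smul_smul]
    congr 1
    rw [div_eq_mul_inv]
    ring
  have hG : Integrable (fun p : ℝ × ℝ => f₁ p.1 * f₂ p.2) (μ.prod μ) :=
    (hK1.sub hK2).congr hae.symm
  have hv2 : ∀ θ, (∫ φ, h₂ φ * (u φ / (x φ - z θ)) ∂μ) = 0 := by
    intro θ
    have h1 : r₂ < ‖z θ - c₂‖ := by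
      have h2 : c₁ - c₂ = (z θ - c₂) - (z θ - c₁) := by ring
      have h3 : ‖c₁ - c₂‖ ≤ ‖z θ - c₂‖ + ‖z θ - c₁‖ := by
        rw [h2]
        exact norm_sub_le _ _
      rw [hzc] at h3
      linarith
    have := G₂.van (z θ) h1
    rw [intervalIntegral.integral_of_le Real.two_pi_pos.le] at this
    exact this
  have hv1 : ∀ φ, (∫ θ, h₁ θ * (u θ / (z θ - x φ)) ∂μ) = 0 := by
    intro φ
    have h1 : r₁ < ‖x φ - c₁‖ := by
      have h2 : c₁ - c₂ = (x φ - c₂) - (x φ - c₁) := by ring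
      have h3 : ‖c₁ - c₂‖ ≤ ‖x φ - c₂‖ + ‖x φ - c₁‖ := by
        rw [h2]
        exact norm_sub_le _ _
      rw [hxc] at h3
      linarith
    have := G₁.van (x φ) h1
    rw [intervalIntegral.integral_of_le Real.two_pi_pos.le] at this
    exact this
  rw [hA₁, hA₂, hprod]
  have hFub : ∫ θ, ∫ φ, f₁ θ * f₂ φ ∂μ ∂μ = ∫ p, f₁ p.1 * f₂ p.2 ∂(μ.prod μ) :=
    (integral_prod _ hG).symm
  rw [hFub, integral_congr_ae hae, integral_sub hK1 hK2, integral_prod _ hK1,
    integral_prod_symm _ hK2]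
  have z1 : ∀ θ, ∫ φ, k θ φ • resolvent a (z θ) ∂μ = 0 := by
    intro θ
    rw [integral_smul_const]
    have : ∫ φ, k θ φ ∂μ = 0 := by
      simp only [hk]
      rw [integral_const_mul, hv2, mul_zero]
    rw [this, zero_smul]
  have z2 : ∀ φ, ∫ θ, k θ φ • resolvent a (x φ) ∂μ = 0 := by
    intro φ
    rw [integral_smul_const]
    have : ∫ θ, k θ φ ∂μ = 0 := by
      have e : (fun θ => k θ φ) = fun θ => (-(h₂ φ * u φ)) * (h₁ θ * (u θ / (z θ - x φ))) := by
        funext θ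
        simp only [hk]
        have h1 : z θ - x φ = -(x φ - z θ) := by ring
        rw [h1, div_neg, div_eq_mul_inv, div_eq_mul_inv]
        ring
      rw [e, integral_const_mul, hv1, mul_zero]
    rw [this, zero_smul]
  simp only [z1, z2, integral_zero, sub_zero]

end Pool.Agent.W150.HY.AB
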